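import Pool.Agent.LE.StmtsQE

/-!
# QDF: the final bound
-/

set_option autoImplicit false

open MeasureTheory ProbabilityTheory

open scoped ENNReal

noncomputable section

namespace Pool.Agent.LE.QD.H24

open Pool.Agent.Anderson hiding box mem_box card_box
open Pool.Agent.Loc Pool.Agent.Mob Pool.Agent.Helper54.Bal Pool.Agent.LE.MN Pool.Agent.LE.CL
  Pool.Agent.LE.QD

theorem log7 {t : ℝ} (ht : 0 < t) (ht1 : t ≤ 1) :
    Real.log (1 / t) ^ 7 * t ^ (2 + 1 / 31 : ℝ) ≤ 6944 ^ 7 * t ^ (2 + 1 / 32 : ℝ) := by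
  have h1 : Real.log (1 / t) ≤ (1 / t) ^ (1 / 6944 : ℝ) / (1 / 6944 : ℝ) :=
    Real.log_le_rpow_div (by positivity) (by norm_num)
  have h0 : 0 ≤ Real.log (1 / t) := Real.log_nonneg (by rw [le_div_iff₀ ht]; linarith)
  have h2 : Real.log (1 / t) ^ 7 ≤ ((1 / t) ^ (1 / 6944 : ℝ) / (1 / 6944 : ℝ)) ^ 7 :=
    pow_le_pow_left₀ h0 h1 7
  have h3 : ((1 / t) ^ (1 / 6944 : ℝ) / (1 / 6944 : ℝ)) ^ 7 = 6944 ^ 7 * t ^ (-(1 / 992) : ℝ) := by
    rw [div_pow, ← Real.rpow_natCast, ← Real.rpow_mul (by positivity), one_div t,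
      Real.inv_rpow ht.le, ← Real.rpow_neg ht.le]
    have e : -(1 / 6944 * ((7 : ℕ) : ℝ)) = (-(1 / 992) : ℝ) := by norm_num
    rw [e]
    ring
  rw [h3] at h2
  calc Real.log (1 / t) ^ 7 * t ^ (2 + 1 / 31 : ℝ)
      ≤ 6944 ^ 7 * t ^ (-(1 / 992) : ℝ) * t ^ (2 + 1 / 31 : ℝ) :=
        mul_le_mul_of_nonneg_right h2 (Real.rpow_nonneg ht.le _)
    _ = 6944 ^ 7 * t ^ (2 + 1 / 32 : ℝ) := by
        rw [mul_assoc, ← Real.rpow_add ht]
        norm_num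

theorem qdf (cpx : CpxStmt) (crg : CrgStmt) : QdfStmt := by
  intro d δ hd hδ
  have hd0 : (3 : ℝ) ≤ d := by exact_mod_cast hd
  obtain ⟨c, K, hc, hc4, hK, h⟩ := cpx d δ (3 * d) hd hδ (by linarith)
  obtain ⟨C, hC, hg⟩ := crg d (by omega)
  refine ⟨c, C * K * (K + 4) * K * 6944 ^ 7, hc, hc4, ?_, ?_⟩
  · have h1 : 1 ≤ C * K := one_le_mul_of_one_le_of_one_le hC hK
    have h2 : 1 ≤ C * K * (K + 4) := one_le_mul_of_one_le_of_one_le h1 (by linarith)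
    have h3 := one_le_mul_of_one_le_of_one_le h2 hK
    exact one_le_mul_of_one_le_of_one_le h3 (by norm_num)
  intro σ E g hσ hσc hE hL
  have hσ0 : 0 < |σ| := abs_pos.2 hσ
  have hσ4 : |σ| ≤ 1 / 4 := hσc.trans hc4
  have h7 := log7 hσ0 (by linarith)
  obtain ⟨l, hl⟩ : ∃ l, l = Real.log (1 / |σ|) := ⟨_, rfl⟩
  have hl1 : 1 ≤ l := by
    rw [hl, Real.le_log_iff_exp_le (by positivity)]
    have h1 := Real.exp_one_lt_d9
    have h2 : 4 ≤ 1 / |σ| := by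
      rw [le_div_iff₀ hσ0]
      linarith
    linarith
  obtain ⟨n, ρ, J, s, hs1, hsK, hρ1, hρ, hJ1, hJ, hn1, hn, hnl, hP⟩ := h σ E hσ hσc hE
  rw [← hl] at hsK hJ hnl h7
  have hn0 : (0 : ℝ) < n := by exact_mod_cast hn1
  have hρ0 : (1 : ℝ) ≤ ρ := by exact_mod_cast hρ1
  have hJ0 : (1 : ℝ) ≤ J := by exact_mod_cast hJ1
  have key := hg σ E s (|σ| ^ (3 * (d : ℝ))) g J n ρ hσ0 (by linarith) (by linarith) hs1 hJ1 hn1
    hρ1 hL (Real.rpow_nonneg hσ0.le _) (by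
      calc |σ| ^ (3 * (d : ℝ)) * n ≤ |σ| ^ (3 * (d : ℝ)) * |σ| ^ (-(3 * (d : ℝ))) :=
            mul_le_mul_of_nonneg_left hn (Real.rpow_nonneg hσ0.le _)
        _ = 1 := by rw [← Real.rpow_add hσ0, add_neg_cancel, Real.rpow_zero]) hP
  rw [← hl] at key
  have hlogρ : Real.log ρ ≤ 3 * l := by
    calc Real.log ρ ≤ Real.log (|σ| ^ (-3 : ℝ)) := Real.log_le_log (by linarith) hρ
      _ = 3 * l := by
          rw [Real.log_rpow hσ0, hl, one_div, Real.log_inv]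
          ring
  have hd00 : (d : ℝ) ≠ 0 := by linarith
  have hKl : 0 < K * l ^ (4 * d) := by positivity
  have hS : 0 < |σ| ^ (-((2 + 1 / 31) * (d : ℝ))) := Real.rpow_pos_of_pos hσ0 _
  have hlow : |σ| ^ (-((2 + 1 / 31) * (d : ℝ))) / (K * l ^ (4 * d)) ≤ n := by
    rw [div_le_iff₀ hKl]
    linarith
  have hnd : (n : ℝ) ^ (-(1 / (d : ℝ))) ≤ K * l ^ 4 * |σ| ^ (2 + 1 / 31 : ℝ) := by
    calc (n : ℝ) ^ (-(1 / (d : ℝ)))
        ≤ (|σ| ^ (-((2 + 1 / 31) * (d : ℝ))) / (K * l ^ (4 * d))) ^ (-(1 / (d : ℝ))) :=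
          Real.rpow_le_rpow_of_nonpos (by positivity) hlow
            (by rw [neg_nonpos]; positivity)
      _ = K ^ (1 / (d : ℝ)) * l ^ 4 * |σ| ^ (2 + 1 / 31 : ℝ) := by
          rw [Real.div_rpow hS.le hKl.le, ← Real.rpow_mul hσ0.le,
            Real.rpow_neg hKl.le, Real.mul_rpow (by linarith) (by positivity),
            ← Real.rpow_natCast, ← Real.rpow_mul (by linarith), div_inv_eq_mul]
          have e1 : -((2 + 1 / 31) * (d : ℝ)) * -(1 / (d : ℝ)) = (2 + 1 / 31 : ℝ) := by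
            field_simp
          have e2 : ((4 * d : ℕ) : ℝ) * (1 / (d : ℝ)) = ((4 : ℕ) : ℝ) := by
            push_cast
            field_simp
          rw [e1, e2, Real.rpow_natCast]
          ring
      _ ≤ K * l ^ 4 * |σ| ^ (2 + 1 / 31 : ℝ) := by
          have hK1 : K ^ (1 / (d : ℝ)) ≤ K := by
            calc K ^ (1 / (d : ℝ)) ≤ K ^ (1 : ℝ) :=
                  Real.rpow_le_rpow_of_exponent_le hK (by
                    rw [div_le_one (by linarith)]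
                    linarith)
              _ = K := Real.rpow_one K
          have hS' : 0 ≤ |σ| ^ (2 + 1 / 31 : ℝ) := Real.rpow_nonneg hσ0.le _
          have hl4 : 0 ≤ l ^ 4 := by positivity
          exact mul_le_mul_of_nonneg_right (mul_le_mul_of_nonneg_right hK1 hl4) hS'
  have hsum : s + l + Real.log ρ ≤ (K + 4) * l := by linarith
  have hsum0 : 0 ≤ s + l + Real.log ρ := by
    have := Real.log_nonneg hρ0
    linarith
  refine key.trans ?_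
  have hn' : 0 ≤ (n : ℝ) ^ (-(1 / (d : ℝ))) := Real.rpow_nonneg hn0.le _
  calc C * J * (s + l + Real.log ρ) * (n : ℝ) ^ (-(1 / (d : ℝ)))
      ≤ C * (K * l ^ 2) * ((K + 4) * l) * (K * l ^ 4 * |σ| ^ (2 + 1 / 31 : ℝ)) := by
        gcongr
    _ = C * K * (K + 4) * K * (l ^ 7 * |σ| ^ (2 + 1 / 31 : ℝ)) := by ring
    _ ≤ C * K * (K + 4) * K * (6944 ^ 7 * |σ| ^ (2 + 1 / 32 : ℝ)) := by
        apply mul_le_mul_of_nonneg_left h7
        positivity
    _ = C * K * (K + 4) * K * 6944 ^ 7 * |σ| ^ (2 + 1 / 32 : ℝ) := by ring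

end Pool.Agent.LE.QD.H24
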